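import Pool.Agent.ISB.StmtsA

set_option autoImplicit false

/-! # Squad ISB, row HLS (one step of Hall's theorem) -/

namespace Pool.Agent.ISB.H88

open scoped Classical

section

variable {F L : Type} [Field F] [LieRing L] [LieAlgebra F L]

lemma itr_zero (A B : Submodule F L) : itr A B 0 = A := rfl

lemma itr_succ (A B : Submodule F L) (p : ℕ) : itr A B (p + 1) = br (itr A B p) B := rfl

lemma itr_one (A B : Submodule F L) : itr A B 1 = br A B := rfl

lemma itr_add (CAL : CalStmt) (A B : Submodule F L) (p q : ℕ) :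
    itr A B (p + q) = itr (itr A B p) B q := ((CAL F L).2.2.2.2.2.2.1 A B p q).symm

lemma itr_succ' (CAL : CalStmt) (A B : Submodule F L) (q : ℕ) :
    itr A B (q + 1) = itr (br A B) B q := by
  rw [add_comm, itr_add CAL, itr_one]

lemma itr_sup (CAL : CalStmt) (U V M : Submodule F L) (q : ℕ) :
    itr (U ⊔ V) M q ≤ itr U M q ⊔ itr V M q := by
  obtain ⟨c1, c2, c3, c4, -, -, c7, c8⟩ := CAL F L
  induction q with
  | zero => exact le_rfl
  | succ q ih =>
    rw [itr_succ, itr_succ, itr_succ, ← c3]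
    exact c1 _ _ _ _ ih le_rfl

lemma jac (CAL : CalStmt) (X Y M : Submodule F L) :
    br (br X Y) M ≤ br (br X M) Y ⊔ br X (br Y M) := by
  obtain ⟨c1, c2, c3, c4, -, -, c7, c8⟩ := CAL F L
  have h := c4 M X Y
  rw [c2 (br X Y) M, c2 X (br Y M), c2 X M, c2 Y M]
  exact h

lemma leib (CAL : CalStmt) (M : Submodule F L) : ∀ (q : ℕ) (X Y Z : Submodule F L),
    (∀ p q', p + q' = q → br (itr X M p) (itr Y M q') ≤ Z) → itr (br X Y) M q ≤ Z := by
  obtain ⟨c1, c2, c3, c4, -, -, c7, c8⟩ := CAL F L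
  intro q
  induction q with
  | zero =>
    intro X Y Z h
    exact h 0 0 rfl
  | succ q ih =>
    intro X Y Z h
    rw [itr_succ' CAL]
    refine le_trans (c8 _ _ _ _ q (jac CAL X Y M) le_rfl) ?_
    refine le_trans (itr_sup CAL _ _ M q) (sup_le ?_ ?_)
    · apply ih
      intro p q' hpq
      rw [← itr_succ' CAL]
      exact h (p + 1) q' (by omega)
    · apply ih
      intro p q' hpq
      rw [← itr_succ' CAL]
      exact h p (q' + 1) (by omega)

end

/-- **Row HLS.** -/
theorem hls (CAL : CalStmt) (IDL : IdlStmt) : HlsStmt := by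
  intro F L _ _ _ A a c t hA h1 h2
  obtain ⟨c1, c2, c3, c4, -, -, c7, c8⟩ := CAL F L
  obtain ⟨i1, i2, i3, -⟩ := IDL F L A hA
  have hMA : dr A t ≤ A := i1 0 t (Nat.zero_le t)
  have hXM : ∀ j p, itr (itr (dr A (t + 1)) (dr A (t + 1)) j) (dr A t) p ≤
      itr (dr A (t + 1)) (dr A (t + 1)) j := by
    intro j p
    induction p with
    | zero => exact le_rfl
    | succ p ih =>
      rw [itr_succ]
      exact le_trans (c1 _ _ _ _ ih hMA) (i3 (t + 1) j)
  have hb : ∀ j, itr (itr (dr A (t + 1)) (dr A (t + 1)) j) (dr A t) ((j + 1) * a) ≤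
      itr (dr A (t + 1)) (dr A (t + 1)) (j + 1) := by
    intro j
    induction j with
    | zero =>
      rw [zero_add, one_mul]
      exact h1
    | succ j ih =>
      rw [itr_succ (dr A (t + 1)) (dr A (t + 1)) j]
      apply leib CAL
      intro p q' hpq
      by_cases hp : (j + 1) * a ≤ p
      · obtain ⟨p', rfl⟩ := Nat.exists_eq_add_of_le hp
        rw [itr_succ (dr A (t + 1)) (dr A (t + 1)) (j + 1)]
        refine c1 _ _ _ _ ?_ (hXM 0 q')
        rw [itr_add CAL]
        exact le_trans (c8 _ _ _ _ p' ih le_rfl) (hXM (j + 1) p')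
      · have hq : a ≤ q' := by
          have h3 : (j + 1 + 1) * a = (j + 1) * a + a := by ring
          omega
        obtain ⟨q'', rfl⟩ := Nat.exists_eq_add_of_le hq
        have h4 : itr (dr A (t + 1)) (dr A t) (a + q'') ≤ br (dr A (t + 1)) (dr A (t + 1)) := by
          rw [itr_add CAL]
          refine le_trans (c8 _ _ _ _ q'' h1 le_rfl) (hXM 1 q'')
        refine le_trans (c1 _ _ _ _ (hXM j p) h4) ?_
        refine le_trans (c4 _ _ _) ?_
        rw [sup_idem]
        exact le_rfl
  have hc : ∀ c, itr (dr A (t + 1)) (dr A t) (∑ j ∈ Finset.range c, (j + 1) * a) ≤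
      itr (dr A (t + 1)) (dr A (t + 1)) c := by
    intro c
    induction c with
    | zero =>
      rw [Finset.range_zero, Finset.sum_empty]
      exact le_rfl
    | succ c ih =>
      rw [Finset.sum_range_succ, itr_add CAL]
      exact le_trans (c8 _ _ _ _ _ ih le_rfl) (hb c)
  rw [itr_add CAL, itr_one]
  exact le_bot_iff.mp (le_trans (hc c) (le_of_eq h2))

end Pool.Agent.ISB.H88
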